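import Mathlib

/-!
# MP_e74e95_nt, Q1 is false: sign patterns of weighted partition sums with factorial parts

For `A = U₃ = {1, 2, 6}` and `k = 2 ≥ m - 1` one has `(-1)^n S_{A,2}(n) < 0` for every
`n = 12 t + 2` with `t ≥ 3`, so part (ii) fails for `m = 3`.
-/

namespace Pool.Agent.Results.MP_e74e95_nt.FactorialPartsSigns

open Finset

/-- `c_A(i,n)`: the number of partitions of `n` with all parts in `A` and exactly `i` parts. -/
noncomputable def c (A : Set ℕ) (i n : ℕ) : ℕ :=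
  Set.ncard {p : Nat.Partition n | (∀ x ∈ p.parts, x ∈ A) ∧ Multiset.card p.parts = i}

/-- `S_{A,k}(n) = ∑_{i=0}^{n} (-1)^i i^k c_A(i,n)` (with `0^0 = 1`). -/
noncomputable def S (A : Set ℕ) (k n : ℕ) : ℤ :=
  ∑ i ∈ range (n + 1), (-1) ^ i * (i : ℤ) ^ k * (c A i n : ℤ)

/-- `U_m = {1!, 2!, …, m!}`. -/
def U (m : ℕ) : Set ℕ := {x | ∃ j, 1 ≤ j ∧ j ≤ m ∧ x = j.factorial}

lemma mem_U3 (x : ℕ) : x ∈ U 3 ↔ x = 1 ∨ x = 2 ∨ x = 6 := by
  unfold U
  constructor
  · rintro ⟨j, h1, h2, rfl⟩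
    interval_cases j <;> simp [Nat.factorial]
  · rintro (rfl | rfl | rfl)
    · exact ⟨1, by norm_num, by norm_num, rfl⟩
    · exact ⟨2, by norm_num, by norm_num, rfl⟩
    · exact ⟨3, by norm_num, by norm_num, rfl⟩

lemma multiset_eq (s : Multiset ℕ) (h : ∀ x ∈ s, x ∈ U 3) :
    s = Multiset.replicate (s.count 1) 1 + Multiset.replicate (s.count 2) 2
      + Multiset.replicate (s.count 6) 6 := by
  ext a
  simp only [Multiset.count_add, Multiset.count_replicate]
  by_cases h1 : a = 1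
  · subst h1; simp
  by_cases h2 : a = 2
  · subst h2; simp
  by_cases h6 : a = 6
  · subst h6; simp
  have : a ∉ s := by
    intro ha
    have := (mem_U3 a).mp (h a ha)
    omega
  rw [Multiset.count_eq_zero_of_notMem this]
  rw [if_neg (by omega), if_neg (by omega), if_neg (by omega)]

lemma sum_eq (s : Multiset ℕ) (h : ∀ x ∈ s, x ∈ U 3) :
    s.sum = s.count 1 + 2 * s.count 2 + 6 * s.count 6 := by
  conv_lhs => rw [multiset_eq s h]
  simp only [Multiset.sum_add, Multiset.sum_replicate, smul_eq_mul]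
  ring

lemma card_eq (s : Multiset ℕ) (h : ∀ x ∈ s, x ∈ U 3) :
    Multiset.card s = s.count 1 + s.count 2 + s.count 6 := by
  conv_lhs => rw [multiset_eq s h]
  simp only [Multiset.card_add, Multiset.card_replicate]

/-- The pairs `(b, d)` = (number of parts `2`, number of parts `6`). -/
def P (n : ℕ) : Finset (ℕ × ℕ) :=
  (range (n + 1) ×ˢ range (n + 1)).filter fun q => 2 * q.1 + 6 * q.2 ≤ n

lemma mem_P {n : ℕ} {q : ℕ × ℕ} : q ∈ P n ↔ 2 * q.1 + 6 * q.2 ≤ n := by
  unfold P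
  simp only [Finset.mem_filter, Finset.mem_product, Finset.mem_range]
  constructor
  · exact fun h => h.2
  · intro h
    exact ⟨⟨by omega, by omega⟩, h⟩

lemma c_eq (i n : ℕ) : c (U 3) i n = ((P n).filter fun q => n - q.1 - 5 * q.2 = i).card := by
  classical
  unfold c
  rw [Set.ncard_eq_toFinset_card']
  apply Finset.card_bij (fun p _ => (p.parts.count 2, p.parts.count 6))
  · intro p hp
    simp only [Set.mem_toFinset, Set.mem_ofPred_eq] at hp
    have h1 := sum_eq p.parts hp.1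
    have h2 := card_eq p.parts hp.1
    rw [p.parts_sum] at h1
    rw [Finset.mem_filter, mem_P]
    constructor
    · simp only; omega
    · simp only; omega
  · intro p hp p' hp' h
    simp only [Set.mem_toFinset, Set.mem_ofPred_eq] at hp hp'
    simp only [Prod.mk.injEq] at h
    have h1 := sum_eq p.parts hp.1
    have h1' := sum_eq p'.parts hp'.1
    rw [p.parts_sum] at h1
    rw [p'.parts_sum] at h1'
    apply Nat.Partition.ext
    rw [multiset_eq p.parts hp.1, multiset_eq p'.parts hp'.1, h.1, h.2,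
      show p.parts.count 1 = p'.parts.count 1 by omega]
  · rintro ⟨b, d⟩ hq
    rw [Finset.mem_filter, mem_P] at hq
    simp only at hq
    let s : Multiset ℕ := Multiset.replicate (n - 2 * b - 6 * d) 1 + Multiset.replicate b 2
      + Multiset.replicate d 6
    have hs : s.sum = n := by
      simp only [s, Multiset.sum_add, Multiset.sum_replicate, smul_eq_mul]
      omega
    have hmem : ∀ x ∈ s, x = 1 ∨ x = 2 ∨ x = 6 := by
      intro x hx
      simp only [s, Multiset.mem_add, Multiset.mem_replicate] at hx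
      omega
    refine ⟨⟨s, ?_, hs⟩, ?_, ?_⟩
    · intro x hx
      have := hmem x hx
      omega
    · simp only [Set.mem_toFinset, Set.mem_ofPred_eq]
      constructor
      · intro x hx
        exact (mem_U3 x).mpr (hmem x hx)
      · simp only [s, Multiset.card_add, Multiset.card_replicate]
        omega
    · simp only [s, Multiset.count_add, Multiset.count_replicate]
      simp

lemma S_eq (k n : ℕ) :
    S (U 3) k n = ∑ q ∈ P n, (-1) ^ (n - q.1 - 5 * q.2) * ((n - q.1 - 5 * q.2 : ℕ) : ℤ) ^ k := by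
  unfold S
  have hmaps : ∀ q ∈ P n, n - q.1 - 5 * q.2 ∈ range (n + 1) := by
    intro q _
    rw [Finset.mem_range]
    omega
  rw [← Finset.sum_fiberwise_of_maps_to hmaps]
  apply Finset.sum_congr rfl
  intro i _
  rw [c_eq, Finset.card_eq_sum_ones, Nat.cast_sum, Finset.mul_sum]
  apply Finset.sum_congr rfl
  intro q hq
  rw [(Finset.mem_filter.mp hq).2]
  simp

/-- Alternating sums of consecutive squares. -/
lemma g_closed (M : ℤ) (B : ℕ) :
    2 * ∑ b ∈ range (B + 1), (-1 : ℤ) ^ b * (M - b) ^ 2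
      = M * (M + 1) + (-1) ^ B * ((M - B) * (M - B - 1)) := by
  induction B with
  | zero => simp; ring
  | succ B ih =>
    rw [Finset.sum_range_succ, mul_add, ih, pow_succ]
    push_cast
    ring

/-- Closed form of the sum over the number of parts equal to `6`. -/
lemma H_closed (t : ℤ) (s : ℕ) :
    3 * ∑ d ∈ range (2 * s + 1), ((-1 : ℤ) ^ d * ((12 * t + 2 - 5 * d) * (12 * t + 3 - 5 * d))
        - (6 * t + 1 - 2 * d) * (6 * t - 2 * d))
      = 18 + 2 * s + 138 * s ^ 2 - 32 * s ^ 3 + 162 * t - 324 * t * s + 144 * t * s ^ 2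
        + 324 * t ^ 2 - 216 * t ^ 2 * s := by
  induction s with
  | zero => simp; ring
  | succ s ih =>
    rw [show 2 * (s + 1) + 1 = 2 * s + 1 + 1 + 1 by ring, Finset.sum_range_succ,
      Finset.sum_range_succ, mul_add, mul_add, ih]
    have h1 : (-1 : ℤ) ^ (2 * s + 1) = -1 := by
      rw [pow_succ, pow_mul]; simp
    have h2 : (-1 : ℤ) ^ (2 * s + 1 + 1) = 1 := by
      rw [pow_succ, h1]; norm_num
    rw [h1, h2]
    push_cast
    ring

lemma sum_P (t : ℕ) (f : ℕ × ℕ → ℤ) :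
    ∑ q ∈ P (12 * t + 2), f q
      = ∑ d ∈ range (2 * t + 1), ∑ b ∈ range (6 * t + 1 - 3 * d + 1), f (b, d) := by
  rw [Finset.sum_sigma']
  apply Finset.sum_nbij' (fun q => ⟨q.2, q.1⟩) (fun q => (q.2, q.1))
  · intro q hq
    rw [mem_P] at hq
    simp only [Finset.mem_sigma, Finset.mem_range]
    omega
  · intro q hq
    simp only [Finset.mem_sigma, Finset.mem_range] at hq
    rw [mem_P]
    simp only
    omega
  · intro q _; rfl
  · intro q _; rfl
  · intro q _; rfl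

lemma S_val (t : ℕ) :
    6 * S (U 3) 2 (12 * t + 2) = 18 + 164 * t + 138 * t ^ 2 - 104 * t ^ 3 := by
  rw [S_eq, sum_P]
  have h : ∀ d ∈ range (2 * t + 1),
      2 * ∑ b ∈ range (6 * t + 1 - 3 * d + 1), (-1 : ℤ) ^ (12 * t + 2 - b - 5 * d)
        * ((12 * t + 2 - b - 5 * d : ℕ) : ℤ) ^ 2
      = (-1 : ℤ) ^ d * ((12 * t + 2 - 5 * d) * (12 * t + 3 - 5 * d))
        - (6 * t + 1 - 2 * d) * (6 * t - 2 * d) := by
    intro d hd
    have hd' : d ≤ 2 * t := by
      have := Finset.mem_range.mp hd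
      omega
    have h1 : ∀ b ∈ range (6 * t + 1 - 3 * d + 1), (-1 : ℤ) ^ (12 * t + 2 - b - 5 * d)
        * ((12 * t + 2 - b - 5 * d : ℕ) : ℤ) ^ 2
        = (-1) ^ d * ((-1) ^ b * ((12 * t + 2 - 5 * d : ℤ) - b) ^ 2) := by
      intro b hb
      have hb' : b ≤ 6 * t + 1 - 3 * d := by
        have := Finset.mem_range.mp hb
        omega
      have hsign : (-1 : ℤ) ^ (12 * t + 2 - b - 5 * d) = (-1) ^ d * (-1) ^ b := by
        rw [← pow_add]
        apply neg_one_pow_congr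
        rw [Nat.even_iff, Nat.even_iff]
        omega
      have hcast : ((12 * t + 2 - b - 5 * d : ℕ) : ℤ) = (12 * t + 2 - 5 * d : ℤ) - b := by
        omega
      rw [hsign, hcast]
      ring
    rw [Finset.sum_congr rfl h1, ← Finset.mul_sum, mul_left_comm, g_closed]
    have hB : ((6 * t + 1 - 3 * d : ℕ) : ℤ) = 6 * t + 1 - 3 * d := by omega
    have hs2 : (-1 : ℤ) ^ d * (-1) ^ (6 * t + 1 - 3 * d) = -1 := by
      rw [← pow_add]
      apply Odd.neg_one_pow
      rw [Nat.odd_iff]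
      omega
    rw [mul_add, ← mul_assoc ((-1 : ℤ) ^ d) ((-1) ^ (6 * t + 1 - 3 * d)), hs2, hB]
    ring
  have h2 : 2 * ∑ d ∈ range (2 * t + 1), ∑ b ∈ range (6 * t + 1 - 3 * d + 1),
      (-1 : ℤ) ^ (12 * t + 2 - b - 5 * d) * ((12 * t + 2 - b - 5 * d : ℕ) : ℤ) ^ 2
      = ∑ d ∈ range (2 * t + 1), ((-1 : ℤ) ^ d * ((12 * t + 2 - 5 * d) * (12 * t + 3 - 5 * d))
        - (6 * t + 1 - 2 * d) * (6 * t - 2 * d)) := by
    rw [Finset.mul_sum]
    exact Finset.sum_congr rfl h
  have h3 := H_closed t t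
  rw [← h2] at h3
  calc _ = 3 * (2 * ∑ d ∈ range (2 * t + 1), ∑ b ∈ range (6 * t + 1 - 3 * d + 1),
      (-1 : ℤ) ^ (12 * t + 2 - b - 5 * d) * ((12 * t + 2 - b - 5 * d : ℕ) : ℤ) ^ 2) := by
        ring
    _ = _ := by rw [h3]; ring

lemma S_neg (t : ℕ) (ht : 3 ≤ t) : S (U 3) 2 (12 * t + 2) < 0 := by
  have h := S_val t
  have ht' : (3 : ℤ) ≤ t := by exact_mod_cast ht
  nlinarith [mul_nonneg (mul_nonneg (sub_nonneg.mpr ht') (sub_nonneg.mpr ht')) (sub_nonneg.mpr ht'),
    mul_nonneg (sub_nonneg.mpr ht') (sub_nonneg.mpr ht')]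

/-- **MP_e74e95_nt, Q1 is false.**  With `m = 3` and `k = 2 ≥ m - 1` the sign
`(-1)^n S_{U_3,2}(n)` is negative for infinitely many `n` (in fact for every `n = 12 t + 2`,
`t ≥ 3`), so the conjunction of (i) and (ii) for all `m ≥ 2` fails. -/
theorem result :
    (∀ t : ℕ, 3 ≤ t → (-1 : ℤ) ^ (12 * t + 2) * S (U 3) 2 (12 * t + 2) < 0) ∧
    ¬ (∀ m : ℕ, 2 ≤ m →
        (∀ k : ℕ, k ≤ m - 2 →
          ∃ N : ℕ, ∀ n : ℕ, N ≤ n → 0 ≤ (-1 : ℤ) ^ ((n + 1) / 2) * S (U m) k n) ∧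
        (∀ k : ℕ, m - 1 ≤ k →
          ∃ N : ℕ, ∀ n : ℕ, N ≤ n → 0 ≤ (-1 : ℤ) ^ n * S (U m) k n)) := by
  have key : ∀ t : ℕ, 3 ≤ t → (-1 : ℤ) ^ (12 * t + 2) * S (U 3) 2 (12 * t + 2) < 0 := by
    intro t ht
    have h : (-1 : ℤ) ^ (12 * t + 2) = 1 := by
      apply Even.neg_one_pow
      rw [Nat.even_iff]
      omega
    rw [h, one_mul]
    exact S_neg t ht
  refine ⟨key, ?_⟩
  intro hall
  obtain ⟨N, hN⟩ := (hall 3 (by norm_num)).2 2 (by norm_num)
  have h1 := hN (12 * (N + 3) + 2) (by omega)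
  have h2 := key (N + 3) (by omega)
  omega

end Pool.Agent.Results.MP_e74e95_nt.FactorialPartsSigns
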